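import Pool.Agent.H69.OK.Deg
import Pool.Agent.H69.OK.Num

/-!
# Multiplicities of the roots of the Okamoto hierarchies: simultaneous cores

`okP m j` is `p_j^{[m]}`, `okQ m N` is `Q_N^{[m]}`, `okR m N` is `R_N^{[m]}` (all defined in
`Pool/Agent/H95/Okamoto/Okam.lean`, as in the hand-in `LargeM`).
-/

set_option autoImplicit false

namespace Pool.Agent.Results.MP_1774d7_an.CoreMultiplicities

open Polynomial OkamotoTP Pool.Agent.H69.OK

/-- `μ` is the size of a partition with at most `N` parts which is at the same time a `3`-core and an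
`m`-core.  The partition is given by its beta set `D` (with `N` elements `d_1 < ... < d_N`, the parts are
`d_i - (i - 1)`); it is a `t`-core if `d - t ∈ D` for all `d ∈ D` with `d ≥ t`. -/
def CoreSize (m N μ : ℕ) : Prop :=
  ∃ D : Finset ℕ, D.card = N ∧ (∀ d ∈ D, 3 ≤ d → d - 3 ∈ D) ∧ (∀ d ∈ D, m ≤ d → d - m ∈ D) ∧
    μ + ∑ i ∈ Finset.range N, i = ∑ d ∈ D, d

/-- `3 μ + 1 = u² + v² + w² - u v - v w - w u` for some natural numbers `u + v + w = m`. -/
def NormForm (m μ : ℕ) : Prop :=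
  ∃ u v w : ℕ, u + v + w = m ∧ 3 * μ + 1 + (u * v + v * w + w * u) = u ^ 2 + v ^ 2 + w ^ 2

theorem okQ_wr (m : ℕ) (hm : 1 ≤ m) (N : ℕ) : okQ m N = C (okc N) * wr (qq m 2 : Fin N → ℂ[X]) := by
  unfold okQ wr
  congr 2
  ext1 i j
  simp only [Matrix.of_apply]
  have e : qq m 2 i = okPZ m ((3 * (i : ℕ) + 2 : ℕ) : ℤ) := by
    unfold qq okPZ
    rw [if_pos (by omega)]
    rfl
  rw [e, iter_okPZ m hm]
  congr 1
  push_cast
  ring

theorem okR_wr (m : ℕ) (hm : 1 ≤ m) (N : ℕ) : okR m N = C (okd N) * wr (qq m 1 : Fin N → ℂ[X]) := by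
  unfold okR wr
  congr 2
  ext1 i j
  simp only [Matrix.of_apply]
  have e : qq m 1 i = okPZ m ((3 * (i : ℕ) + 1 : ℕ) : ℤ) := by
    unfold qq okPZ
    rw [if_pos (by omega)]
    rfl
  rw [e, iter_okPZ m hm]
  congr 1
  push_cast
  ring

theorem okc_ne (N : ℕ) : okc N ≠ 0 := by
  unfold okc
  refine mul_ne_zero (inv_ne_zero (pow_ne_zero _ (by norm_num))) ?_
  rw [Finset.prod_ne_zero_iff]
  intro k _
  exact div_ne_zero (by exact_mod_cast (3 * k - 1).factorial_ne_zero)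
    (by exact_mod_cast (k - 1).factorial_ne_zero)

theorem okd_ne (N : ℕ) : okd N ≠ 0 := by
  unfold okd
  refine mul_ne_zero (inv_ne_zero (pow_ne_zero _ (by norm_num))) ?_
  rw [Finset.prod_ne_zero_iff]
  intro k _
  exact div_ne_zero (by exact_mod_cast (3 * k - 2).factorial_ne_zero)
    (by exact_mod_cast (k - 1).factorial_ne_zero)

theorem sumDeg (N b : ℕ) (n : ℕ) (h : n + ∑ i : Fin N, (i : ℕ) = ∑ i : Fin N, (3 * (i : ℕ) + b)) :
    (n : ℤ) = N * (N - 1) + b * N := by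
  have e1 : (∑ i : Fin N, (i : ℕ)) = ∑ k ∈ Finset.range N, k := Fin.sum_univ_eq_sum_range (fun k => k) N
  have e2 : (∑ i : Fin N, (3 * (i : ℕ) + b)) = ∑ k ∈ Finset.range N, (3 * k + b) :=
    Fin.sum_univ_eq_sum_range (fun k => 3 * k + b) N
  rw [e1, e2] at h
  have g1 := gauss N
  have g2 := gauss3 N b
  have e3 : ((∑ k ∈ Finset.range N, k : ℕ) : ℤ) = ∑ k ∈ Finset.range N, (k : ℤ) := by push_cast; rfl
  have h2 : (n : ℤ) + ((∑ k ∈ Finset.range N, k : ℕ) : ℤ) = ((∑ k ∈ Finset.range N, (3 * k + b) : ℕ) : ℤ) := by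
    exact_mod_cast h
  rw [e3] at h2
  have h3 : 2 * (n : ℤ) = 2 * (N * (N - 1) + b * N) := by linarith
  linarith

theorem main {m : ℕ} (hm : 2 ≤ m) (h3 : ¬ 3 ∣ m) (N : ℕ) {b : ℕ} (hb : b < 3) {F : ℂ[X]} {c : ℂ} (hc : c ≠ 0)
    (hF : F = C c * wr (qq m b : Fin N → ℂ[X])) :
    (∀ z : ℂ, CoreSize m N (F.rootMultiplicity z) ∧ NormForm m (F.rootMultiplicity z) ∧
      3 * F.rootMultiplicity z + 1 ≤ m ^ 2) ∧
    (F.natDegree : ℤ) = N * (N - 1) + b * N := by
  constructor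
  · intro z
    obtain ⟨hw, D, h1, h2, h4, h5⟩ := exD hm N hb z
    have e : F.rootMultiplicity z = (wr (qq m b : Fin N → ℂ[X])).rootMultiplicity z := by
      rw [hF, rootMultiplicity_mul (mul_ne_zero (by rwa [Ne, C_eq_zero]) hw), rootMultiplicity_C, zero_add]
    rw [← e] at h5
    have h6 := core_num h1 h3 h2 h4 h5
    refine ⟨⟨D, h1, h2, h4, ?_⟩, h6, core_le h6⟩
    rw [← h5, Fin.sum_univ_eq_sum_range (fun k => k) N]
  · have h1 := wr_deg m (by omega) b N
    rw [hF, natDegree_C_mul hc]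
    exact sumDeg N b _ h1

/-- **Multiplicities of the roots of the Okamoto hierarchies.**  Let `m ≥ 2` be prime to `3`.
For every `N` and every complex number `z` the multiplicity `μ` of `z` as a root of `Q_N^{[m]}`
(`0` if it is no root) is the size of a partition which is a `3`-core and an `m`-core; so
`3 μ + 1 = u² + v² + w² - u v - v w - w u` with natural numbers `u + v + w = m`, and
`μ ≤ (m² - 1) / 3`, a bound which does not depend on `N`.  The same for `R_N^{[m]}`.  Hence `Q_N^{[m]}`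
has at least `3 N (N + 1) / (m² - 1)` and `R_N^{[m]}` at least `3 N² / (m² - 1)` different roots. -/
theorem result (m : ℕ) (hm : 2 ≤ m) (h3 : ¬ 3 ∣ m) (N : ℕ) :
    (∀ z : ℂ, ∀ μ : ℕ, μ = (okQ m N).rootMultiplicity z ∨ μ = (okR m N).rootMultiplicity z →
      CoreSize m N μ ∧ NormForm m μ ∧ 3 * μ + 1 ≤ m ^ 2 ∧
      (m = 2 → μ ≤ 1) ∧ (m = 4 → μ ∈ ({0, 1, 2, 5} : Finset ℕ)) ∧ (m = 5 → μ ∈ ({0, 1, 2, 4, 8} : Finset ℕ))) ∧
    3 * (N * (N + 1)) ≤ (m ^ 2 - 1) * (okQ m N).roots.toFinset.card ∧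
    3 * N ^ 2 ≤ (m ^ 2 - 1) * (okR m N).roots.toFinset.card := by
  obtain ⟨hQ, hQd⟩ := main hm h3 N (b := 2) (by norm_num) (okc_ne N) (okQ_wr m (by omega) N)
  obtain ⟨hR, hRd⟩ := main hm h3 N (b := 1) (by norm_num) (okd_ne N) (okR_wr m (by omega) N)
  refine ⟨?_, ?_, ?_⟩
  · intro z μ hμ
    have h1 : CoreSize m N μ ∧ NormForm m μ ∧ 3 * μ + 1 ≤ m ^ 2 := by
      rcases hμ with h | h
      · rw [h]; exact hQ z
      · rw [h]; exact hR z
    obtain ⟨h1, h2, h4⟩ := h1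
    refine ⟨h1, h2, h4, ?_, ?_, ?_⟩
    · rintro rfl
      omega
    · rintro rfl
      obtain ⟨u, v, w, h5, h6⟩ := h2
      have hu : u ≤ 4 := by omega
      have hv : v ≤ 4 := by omega
      obtain rfl : w = 4 - u - v := by omega
      interval_cases u <;> interval_cases v <;> simp at h5 h6 ⊢ <;> omega
    · rintro rfl
      obtain ⟨u, v, w, h5, h6⟩ := h2
      have hu : u ≤ 5 := by omega
      have hv : v ≤ 5 := by omega
      obtain rfl : w = 5 - u - v := by omega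
      interval_cases u <;> interval_cases v <;> simp at h5 h6 ⊢ <;> omega
  · have h5 := roots_ge (F := okQ m N) (K := m ^ 2) (fun z => (hQ z).2.2)
    have h6 : (okQ m N).natDegree = N * (N + 1) := by
      have : ((okQ m N).natDegree : ℤ) = ((N * (N + 1) : ℕ) : ℤ) := by
        rw [hQd]
        push_cast
        ring
      exact_mod_cast this
    rw [h6] at h5
    rw [Nat.sub_mul, one_mul]
    omega
  · have h5 := roots_ge (F := okR m N) (K := m ^ 2) (fun z => (hR z).2.2)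
    have h6 : (okR m N).natDegree = N ^ 2 := by
      have : ((okR m N).natDegree : ℤ) = ((N ^ 2 : ℕ) : ℤ) := by
        rw [hRd]
        push_cast
        ring
      exact_mod_cast this
    rw [h6] at h5
    rw [Nat.sub_mul, one_mul]
    omega

end Pool.Agent.Results.MP_1774d7_an.CoreMultiplicities
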