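import Pool.Agent.H95.Okamoto.Okam

/-!
# Simple nonzero roots of the Okamoto hierarchies in the range `m ≥ 3N/2`

`okP m j` is `p_j^{[m]}`, `okQ m N` is `Q_N^{[m]}`, `okR m N` is `R_N^{[m]}` (all defined in
`Pool/Agent/H95/Okamoto/Okam.lean`).  The nontrivial range of `m` for a given `N` is `m ≤ 3N - 1`
(for larger `m` the determinants are pure powers of `z`), so the theorem covers the upper half of
the nontrivial range.
-/

namespace Pool.Agent.Results.MP_1774d7_an.LargeM

open Matrix Finset Polynomial OkamotoTP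

theorem exp_sum (w : ℂ) :
    HasSum (fun k : ℕ => w ^ k / (k.factorial : ℂ)) (Complex.exp w) := by
  rw [Complex.exp_eq_exp_ℂ]
  exact NormedSpace.expSeries_div_hasSum_exp w

theorem exp_norm_sum (w : ℂ) : Summable (fun k : ℕ => ‖w ^ k / (k.factorial : ℂ)‖) :=
  NormedSpace.norm_expSeries_div_summable w

theorem mul_sum' (f g : ℕ → ℂ) (hf : Summable fun k => ‖f k‖) (hg : Summable fun k => ‖g k‖)
    (a b : ℂ) (ha : HasSum f a) (hb : HasSum g b) :
    HasSum (fun x : ℕ × ℕ => f x.1 * g x.2) (a * b) :=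
  ha.mul hb (summable_mul_of_summable_norm hf hg)

theorem exp_add_sum (u v : ℂ) :
    HasSum (fun x : ℕ × ℕ => u ^ x.1 / (x.1.factorial : ℂ) * (v ^ x.2 / (x.2.factorial : ℂ)))
      (Complex.exp (u + v)) := by
  rw [Complex.exp_add]
  exact mul_sum' (fun k => u ^ k / (k.factorial : ℂ)) (fun k => v ^ k / (k.factorial : ℂ))
    (exp_norm_sum u) (exp_norm_sum v) _ _ (exp_sum u) (exp_sum v)

/-- The defining expansion: `exp (ε^m + z ε) = ∑ ε^j p_j(z)`. -/
theorem generating (m : ℕ) (hm : 1 ≤ m) (z ε : ℂ) :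
    HasSum (fun j : ℕ => ε ^ j * (okP m j).eval z) (Complex.exp (ε ^ m + z * ε)) := by
  have h3 := exp_add_sum (ε ^ m) (z * ε)
  have h4 := h3.tsum_fiberwise (fun x : ℕ × ℕ => m * x.1 + x.2)
  refine (funext fun j => ?_ : (fun j : ℕ => ε ^ j * (okP m j).eval z) = _) ▸ h4
  rw [tsum_subtype ((fun x : ℕ × ℕ => m * x.1 + x.2) ⁻¹' {j})
    (fun x : ℕ × ℕ => (ε ^ m) ^ x.1 / (x.1.factorial : ℂ) * ((z * ε) ^ x.2 / (x.2.factorial : ℂ)))]
  rw [tsum_eq_sum (s := (Finset.range (j / m + 1)).image (fun k => (k, j - m * k)))]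
  · rw [Finset.sum_image (by intro a _ b _ h; exact (Prod.mk.inj h).1)]
    unfold okP
    rw [Polynomial.eval_finsetSum, Finset.mul_sum]
    refine Finset.sum_congr rfl fun k hk => ?_
    have hk' : m * k ≤ j := by
      rw [Finset.mem_range, Nat.lt_succ_iff, Nat.le_div_iff_mul_le (by omega)] at hk
      rw [mul_comm]; exact hk
    rw [Set.indicator_of_mem]
    · simp only [Polynomial.eval_mul, Polynomial.eval_C, Polynomial.eval_pow, Polynomial.eval_X]
      have : ε ^ j = (ε ^ m) ^ k * ε ^ (j - m * k) := by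
        rw [← pow_mul, ← pow_add]; congr 1; omega
      rw [this, mul_pow]
      have f1 : (k.factorial : ℂ) ≠ 0 := by exact_mod_cast k.factorial_ne_zero
      have f2 : ((j - m * k).factorial : ℂ) ≠ 0 := by exact_mod_cast (j - m * k).factorial_ne_zero
      field_simp
    · simp only [Set.mem_preimage, Set.mem_singleton_iff]
      omega
  · intro x hx
    rw [Set.indicator_of_notMem]
    intro hmem
    simp only [Set.mem_preimage, Set.mem_singleton_iff] at hmem
    apply hx
    rw [Finset.mem_image]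
    refine ⟨x.1, ?_, ?_⟩
    · rw [Finset.mem_range, Nat.lt_succ_iff, Nat.le_div_iff_mul_le (by omega)]
      rw [mul_comm]; omega
    · ext
      · rfl
      · simp; omega

theorem okc_ne (N : ℕ) : okc N ≠ 0 := by
  unfold okc
  refine mul_ne_zero (inv_ne_zero (pow_ne_zero _ (by norm_num))) ?_
  rw [Finset.prod_ne_zero_iff]
  intro k _
  exact div_ne_zero (by exact_mod_cast (3 * k - 1).factorial_ne_zero)
    (by exact_mod_cast (k - 1).factorial_ne_zero)

theorem okd_ne (N : ℕ) : okd N ≠ 0 := by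
  unfold okd
  refine mul_ne_zero (inv_ne_zero (pow_ne_zero _ (by norm_num))) ?_
  rw [Finset.prod_ne_zero_iff]
  intro k _
  exact div_ne_zero (by exact_mod_cast (3 * k - 2).factorial_ne_zero)
    (by exact_mod_cast (k - 1).factorial_ne_zero)

theorem indexQ (m : ℕ) {N : ℕ} (i j : Fin N) :
    okPZ m (3 * ((i : ℤ) + 1) - ((j : ℤ) + 1)) =
      okPZ m (((3 * (i : ℕ) + 2 : ℕ) : ℤ) - ((j : ℕ) : ℤ)) := by
  congr 1
  push_cast
  ring

theorem indexR (m : ℕ) {N : ℕ} (i j : Fin N) :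
    okPZ m (3 * ((i : ℤ) + 1) - 1 - ((j : ℤ) + 1)) =
      okPZ m (((3 * (i : ℕ) + 1 : ℕ) : ℤ) - ((j : ℕ) : ℤ)) := by
  congr 1
  push_cast
  ring

/-- For all `N ≥ 1`, `m ≥ 2`: if `2m ≥ 3N` then every nonzero complex root of `Q_N^{[m]}` is
simple, and if `2m ≥ 3N - 1` then every nonzero complex root of `R_N^{[m]}` is simple. -/
theorem result (N m : ℕ) (_hN : 1 ≤ N) (hm : 2 ≤ m) :
    (3 * N ≤ 2 * m → ∀ z : ℂ, z ≠ 0 → (okQ m N).IsRoot z → (okQ m N).rootMultiplicity z = 1) ∧
    (3 * N ≤ 2 * m + 1 → ∀ z : ℂ, z ≠ 0 → (okR m N).IsRoot z →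
      (okR m N).rootMultiplicity z = 1) := by
  constructor
  · intro h z hz hr
    have e : (Matrix.of fun i j : Fin N => okPZ m (3 * ((i : ℤ) + 1) - ((j : ℤ) + 1))) =
        (Matrix.of fun i j : Fin N =>
          okPZ m (((3 * (i : ℕ) + 2 : ℕ) : ℤ) - ((j : ℕ) : ℤ))) := by
      ext i j : 1
      exact indexQ m i j
    unfold okQ at hr ⊢
    rw [e] at hr ⊢
    exact simple_general (by omega) (by norm_num) le_rfl (fun i => by have := i.2; omega)
      _ (okc_ne N) z hz hr
  · intro h z hz hr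
    have e : (Matrix.of fun i j : Fin N => okPZ m (3 * ((i : ℤ) + 1) - 1 - ((j : ℤ) + 1))) =
        (Matrix.of fun i j : Fin N =>
          okPZ m (((3 * (i : ℕ) + 1 : ℕ) : ℤ) - ((j : ℕ) : ℤ))) := by
      ext i j : 1
      exact indexR m i j
    unfold okR at hr ⊢
    rw [e] at hr ⊢
    exact simple_general (by omega) le_rfl (by norm_num) (fun i => by have := i.2; omega)
      _ (okd_ne N) z hz hr

end Pool.Agent.Results.MP_1774d7_an.LargeM
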